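import Pool.Agent.Q209.PG.Sel

/-!
# MP_0d8d6b_gt: a Hausdorff space on which One wins `G₁(K_X, Ω_X)` but not with a predetermined
strategy

All covers are open covers which do not contain the whole space. There is (in ZFC) a Hausdorff space
`X` on which One has a winning strategy in the game `G₁(K_X, Ω_X)`, but no winning predetermined
strategy. So Q1 has a negative answer.

**The space.** Let `P = ω₁ × ω`. Let `B` be the set of the ultrafilters on `P` which contain a set
`{(β, j) | β ≤ δ}`, `δ < ω₁` (the principal ultrafilters are identified with the points of `P`), with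
the topology of the space of ultrafilters, together with points `e_j`, `j < ω`, and `e`. The basic
neighbourhoods of `e_j` consist of `e_j` and of all the ultrafilters of `B` which contain
`{(β, j) | β > α}`, `α < ω₁`; those of `e` consist of `e` and of the ultrafilters of `B` which contain
`{(β, i) | β > α, i ≥ l}`, `α < ω₁`, `l < ω`. `B` is a Hausdorff space in which the points of `P` are
isolated. It is not regular: the `e_j` form a closed set.

`X` is the tree over `B`: the points are the infinite sequences of elements of `P`, and the finite
sequences `(s, c)` of elements `s_i` of `P` and one last element `c` of `B` which is not in `P`. A set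
`U` is a neighbourhood of `x ∈ X` if there are `n` and an open set `V` of `B` with `x_n ∈ V` such that `U`
contains all the points of `X` which have the same entries `x_0, …, x_(n-1)` (all in `P`) as `x` and
the next entry in `V`.

**One wins.** No compact set of `B` contains `P`. So for a finite sequence `s` in `P` every compact set
of `X` misses the set `[s, y]` of the points which extend `(s, y)`, for some `y ∈ P`, and the
complements of the sets `[s, y]`, `y ∈ P`, form a `k`-cover. One plays this cover for the sequence
`s = (y_0, …, y_(n-1))` of the `y` chosen by Two so far; the point `(y_0, y_1, …)` is never covered.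

**A predetermined strategy does not win.** The closure of `{(β, j) | β ≤ δ}` in `B` together with the
`e_j`, `j < k`, and `e` is compact, and the set of all the points of `X` with all entries in it is
compact. So a member `U` of the `k`-cover which One plays in round `n` contains it. By compactness
there are a finite set `E ⊆ [0, δ]`, `γ < ω₁` and `l < ω` such that a point of `X` outside of `U` has a
first entry outside of this compact set, the entries before have first coordinates in `E`, and this
entry, if it is in `P`, is a `(β, j)` with `β > δ` and (`β ≤ γ` or `k ≤ j < l`). By an argument with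
countable suprema (`E = E_n(k, δ)` is finite) there is `γ₀ < ω₁` such that for all `n`, `k` and
`η ≥ γ₀` there is `δ > η` for which `E_n(k, δ)` is disjoint from `(γ₀, η]`. Two chooses `δ_n`, `k_n`
inductively with `k_(n+1) ≥ l_n`, `δ_(n+1) > γ_n`, and `E_(n+1)` disjoint from `(γ₀, max(δ_n, γ_n)]`. Then
every point is missed only finitely often: it cannot leave the compact sets at the same index for
three `n`, and if it leaves them at three different indices for `n₁ < n₂ < n₃`, the first of these
entries has its first coordinate in `(δ_(n₁), δ_(n₂)]` and in `E_(n₃)`.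
-/

set_option autoImplicit false

namespace Pool.Agent.Results.MP_0d8d6b_gt.AdaptiveWin

open Set Topology

/-- An `ω`-cover: an open cover which does not contain the whole space such that every finite set is
contained in one member. -/
def IsOmegaCover {X : Type} [TopologicalSpace X] (𝒰 : Set (Set X)) : Prop :=
  (∀ U ∈ 𝒰, IsOpen U) ∧ ⋃₀ 𝒰 = univ ∧ univ ∉ 𝒰 ∧ ∀ F : Set X, F.Finite → ∃ U ∈ 𝒰, F ⊆ U

/-- A `k`-cover: an open cover which does not contain the whole space such that every nonempty
compact set is contained in one member. -/
def IsKCover {X : Type} [TopologicalSpace X] (𝒰 : Set (Set X)) : Prop :=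
  (∀ U ∈ 𝒰, IsOpen U) ∧ ⋃₀ 𝒰 = univ ∧ univ ∉ 𝒰 ∧
    ∀ K : Set X, K.Nonempty → IsCompact K → ∃ U ∈ 𝒰, K ⊆ U

/-- The moves `U 0, …, U (n - 1)` of Two before round `n`. -/
def hist {X : Type} (U : ℕ → Set X) (n : ℕ) : List (Set X) := (List.range n).map U

/-- One has a winning strategy in `G₁(K_X, Ω_X)`: a strategy assigns a `k`-cover to each finite
sequence of earlier moves of Two, and no play `U` in which Two chooses `U n` from the cover which the
strategy gives is an `ω`-cover. -/
def OneWins (X : Type) [TopologicalSpace X] : Prop :=
  ∃ σ : List (Set X) → Set (Set X), (∀ l, IsKCover (σ l)) ∧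
    ∀ U : ℕ → Set X, (∀ n, U n ∈ σ (hist U n)) → ¬ IsOmegaCover (range U)

/-- One has a winning predetermined strategy in `G₁(K_X, Ω_X)`: a sequence of `k`-covers. -/
def OneWinsPre (X : Type) [TopologicalSpace X] : Prop :=
  ∃ 𝒰 : ℕ → Set (Set X), (∀ n, IsKCover (𝒰 n)) ∧
    ∀ U : ℕ → Set X, (∀ n, U n ∈ 𝒰 n) → ¬ IsOmegaCover (range U)

/-- The set of the countable ordinals. -/
abbrev Om : Type := (Cardinal.aleph 1).ord.ToType

theorem bounded (f : ℕ → Om) : ∃ b, ∀ n, f n < b := by
  by_contra hcon
  push Not at hcon
  have h1 : (univ : Set Om) ⊆ ⋃ n, Iic (f n) := fun b _ => by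
    obtain ⟨n, hn⟩ := hcon b
    exact mem_iUnion.2 ⟨n, hn⟩
  have h2 : ∀ n, (Iic (f n)).Countable := by
    intro n
    rw [← Iio_insert]
    refine Set.Countable.insert _ ?_
    have : Cardinal.mk (Iio (f n)) < Cardinal.aleph 1 := by
      simpa using Cardinal.mk_Iio_lt (f n)
    rw [← Cardinal.le_aleph0_iff_set_countable]
    exact Order.lt_succ_iff.1 (this.trans_eq Cardinal.succ_aleph0.symm)
  have h3 : (univ : Set Om).Countable := (countable_iUnion h2).mono h1
  have h4 : Cardinal.mk Om ≤ Cardinal.aleph0 := by
    rw [Cardinal.mk_le_aleph0_iff]
    exact Set.countable_univ_iff.1 h3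
  rw [Cardinal.mk_toType, Cardinal.card_ord] at h4
  exact absurd h4 (not_le.2 Cardinal.aleph0_lt_aleph_one)

instance : Nonempty Om := by
  rw [← Cardinal.mk_ne_zero_iff, Cardinal.mk_toType, Cardinal.card_ord]
  exact (Cardinal.aleph_pos 1).ne'

/-- There is a Hausdorff space on which One has a winning strategy, but no winning predetermined
strategy, in the game `G₁(K_X, Ω_X)`. -/
theorem result : ∃ (X : Type) (_ : TopologicalSpace X), T2Space X ∧ OneWins X ∧ ¬ OneWinsPre X :=
  ⟨Pool.Agent.Q209.PG.Tr (Pool.Agent.Q209.PG.Bs Om) (Pool.Agent.Q209.PG.II Om), inferInstance,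
    inferInstance, Pool.Agent.Q209.PG.oneWins_tr bounded,
    Pool.Agent.Q209.PG.not_oneWinsPre bounded⟩

end Pool.Agent.Results.MP_0d8d6b_gt.AdaptiveWin
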